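import Pool.Agent.Q46.TD.Example

set_option autoImplicit false

namespace Pool.Agent.Results.MP_6ebba1_al.NonDiagonalizableAdmissible

open Module Q46.TD

/-- Over every field of characteristic zero there is a tridiagonal pair (of diameter `2` and shape
`(1, 2, 1)`, on a space of dimension `4`) which has an admissible map that is not diagonalizable;
it even has a Jordan block of size two, so it does not become diagonalizable over any extension
of the field. -/
theorem result (K : Type*) [Field K] [CharZero K] :
    ∃ (A B : End K (Fin 4 → K)) (θ θ' : Fin 3 → K), TridiagonalPair A B θ θ' ∧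
      ∃ S : End K (Fin 4 → K), Admissible A B θ θ' S ∧ ¬ Diagonalizable S ∧
        ∃ (lam : K) (v : Fin 4 → K), (S - algebraMap K (End K (Fin 4 → K)) lam) v ≠ 0 ∧
          ((S - algebraMap K (End K (Fin 4 → K)) lam) ^ 2) v = 0 :=
  ⟨mapA K, mapB K, eigA K, eigB K, pair, mapS K, admissible, not_diagonalizable, -12, jordan⟩

end Pool.Agent.Results.MP_6ebba1_al.NonDiagonalizableAdmissible
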